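import Mathlib

/-!
# An abelian power-free binary morphism with a 5-power-free fixed point avoiding `bb`
(MP_8f8c07, Q1)

The morphism `a ↦ aabaa`, `b ↦ bababab` is abelian 12-power free, and its fixed point starting
with `a` is 5-power free and avoids `bb`.
-/

set_option autoImplicit false

namespace Pool.Agent.Results.MP_8f8c07_co.FivePower

/-- The alphabet `{a, b}`. -/
inductive AB
  | a
  | b
  deriving DecidableEq

open AB

/-- The morphism with letter images `img`, applied to a finite word. -/
def app (img : AB → List AB) (w : List AB) : List AB := w.flatMap img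

/-- The iterates of the morphism. -/
def iter (img : AB → List AB) : ℕ → List AB → List AB
  | 0, w => w
  | n + 1, w => app img (iter img n w)

/-- `w` is an abelian `k`-power: a concatenation of `k` nonempty words which are
permutations of each other. -/
def AbelianPower (k : ℕ) (w : List AB) : Prop :=
  ∃ L : List (List AB), L.length = k ∧ w = L.flatten ∧ (∀ v ∈ L, v ≠ []) ∧
    ∀ v ∈ L, ∀ v' ∈ L, v.Perm v'

/-- No factor of `w` is an abelian `k`-power. -/
def AbelianFree (k : ℕ) (w : List AB) : Prop := ∀ v, v <:+: w → ¬ AbelianPower k v

/-- The morphism with letter images `img` is abelian `k`-power free. -/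
def MorphismFree (k : ℕ) (img : AB → List AB) : Prop :=
  ∀ w, AbelianFree k w → AbelianFree k (app img w)

/-! ### The morphism -/

/-- `a ↦ aabaa`, `b ↦ bababab` -/
def g : AB → List AB
  | a => [a, a, b, a, a]
  | b => [b, a, b, a, b, a, b]

/-- letter weights -/
def fl : AB → ZMod 13
  | a => 1
  | b => 9

/-- weight of a word -/
def F (w : List AB) : ZMod 13 := (w.map fl).sum

/-- The proper prefixes of the images. -/
def PP : List (List AB) :=
  [[], [a], [a, a], [a, a, b], [a, a, b, a], [b], [b, a], [b, a, b], [b, a, b, a],
    [b, a, b, a, b], [b, a, b, a, b, a]]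

lemma F_nil : F [] = 0 := rfl
lemma F_cons (c : AB) (w : List AB) : F (c :: w) = fl c + F w := by simp [F]
lemma F_append (v w : List AB) : F (v ++ w) = F v + F w := by simp [F]

lemma F_g (c : AB) : F (g c) = 0 := by cases c <;> decide

lemma app_nil (img : AB → List AB) : app img [] = [] := rfl
lemma app_cons (img : AB → List AB) (c : AB) (w : List AB) :
    app img (c :: w) = img c ++ app img w := by simp [app]
lemma app_append (img : AB → List AB) (v w : List AB) :
    app img (v ++ w) = app img v ++ app img w := by simp [app]

lemma F_app (w : List AB) : F (app g w) = 0 := by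
  induction w with
  | nil => rfl
  | cons c w ih => rw [app_cons, F_append, F_g, ih, add_zero]

lemma PP_inj : ∀ p ∈ PP, ∀ q ∈ PP, F p = F q → p = q := by decide

lemma proper_mem (c : AB) (p : List AB) (h : p <+: g c) (hl : p.length < (g c).length) :
    p ∈ PP := by
  have h1 : p = (g c).take p.length := List.prefix_iff_eq_take.mp h
  have h2 : ∀ c : AB, ∀ n < (g c).length, (g c).take n ∈ PP := by
    intro c; cases c <;> decide
  rw [h1]
  exact h2 c p.length hl

lemma glen (c : AB) : 5 ≤ (g c).length ∧ (g c).length ≤ 7 := by cases c <;> decide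

/-- Decomposition of a prefix of the image of a word. -/
lemma dec (w : List AB) : ∀ X : List AB, X <+: app g w →
    ∃ A p, A <+: w ∧ X = app g A ++ p ∧ p ∈ PP := by
  induction w with
  | nil =>
    intro X hX
    rw [app_nil, List.prefix_nil] at hX
    exact ⟨[], [], List.prefix_rfl, by simp [hX, app_nil], by decide⟩
  | cons c w ih =>
    intro X hX
    rw [app_cons] at hX
    by_cases hl : X.length < (g c).length
    · have h1 : X <+: g c := List.prefix_of_prefix_length_le hX (List.prefix_append _ _) hl.le
      exact ⟨[], X, List.nil_prefix, by simp [app_nil], proper_mem c X h1 hl⟩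
    · have h1 : g c <+: X :=
        List.prefix_of_prefix_length_le (List.prefix_append _ _) hX (not_lt.mp hl)
      obtain ⟨X', rfl⟩ := h1
      rw [List.prefix_append_right_inj] at hX
      obtain ⟨A, p, hA, hX', hp⟩ := ih X' hX
      exact ⟨c :: A, p, (List.prefix_cons_inj c).mpr hA, by rw [app_cons, hX']; simp, hp⟩

/-- A prefix of the image of a word is a prefix of the image of a prefix, not much longer. -/
lemma ceil (w : List AB) : ∀ X : List AB, X <+: app g w →
    ∃ C, C <+: w ∧ X <+: app g C ∧ (app g C).length ≤ X.length + 6 := by
  induction w with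
  | nil =>
    intro X hX
    rw [app_nil, List.prefix_nil] at hX
    exact ⟨[], List.prefix_rfl, by simp [hX, app_nil], by simp [hX, app_nil]⟩
  | cons c w ih =>
    intro X hX
    rw [app_cons] at hX
    by_cases h0 : X = []
    · exact ⟨[], List.nil_prefix, by simp [h0, app_nil], by simp [app_nil]⟩
    by_cases hl : X.length < (g c).length
    · have h1 : X <+: g c := List.prefix_of_prefix_length_le hX (List.prefix_append _ _) hl.le
      refine ⟨[c], by simp, by simpa [app] using h1, ?_⟩
      have := List.length_pos_of_ne_nil h0
      have := (glen c).2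
      simp only [app, List.flatMap_cons, List.flatMap_nil, List.append_nil]
      omega
    · have h1 : g c <+: X :=
        List.prefix_of_prefix_length_le (List.prefix_append _ _) hX (not_lt.mp hl)
      obtain ⟨X', rfl⟩ := h1
      rw [List.prefix_append_right_inj] at hX
      obtain ⟨C, hC, hX', hp⟩ := ih X' hX
      refine ⟨c :: C, (List.prefix_cons_inj c).mpr hC, ?_, ?_⟩
      · rw [app_cons, List.prefix_append_right_inj]; exact hX'
      · rw [app_cons, List.length_append, List.length_append]; omega

lemma F_mem (w X : List AB) (h : X <+: app g w) : ∃ p ∈ PP, F X = F p := by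
  obtain ⟨A, p, -, rfl, hp⟩ := dec w X h
  exact ⟨p, hp, by rw [F_append, F_app, zero_add]⟩

lemma app_len_mono {A B : List AB} (h : A <+: B) : (app g A).length ≤ (app g B).length := by
  obtain ⟨C, rfl⟩ := h
  rw [app_append, List.length_append]; omega

/-- Pulling back a sequence of blocks of weight zero. -/
lemma pull (w p : List AB) (hp : p ∈ PP) : ∀ (L : List (List AB)) (A : List AB), A <+: w →
    (app g A ++ p) ++ L.flatten <+: app g w → (∀ l ∈ L, l ≠ [] ∧ F l = 0) →
    ∃ V : List (List AB), A ++ V.flatten <+: w ∧
      List.Forall₂ (fun v l => app g v ++ p = p ++ l) V L := by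
  intro L
  induction L with
  | nil =>
    intro A hA _ _
    exact ⟨[], by simpa using hA, List.Forall₂.nil⟩
  | cons l L ih =>
    intro A hA hpre hL
    have hl := hL l (by simp)
    have h1 : (app g A ++ p) ++ l <+: app g w := by
      refine List.IsPrefix.trans ?_ hpre
      rw [List.flatten_cons, ← List.append_assoc]
      exact List.prefix_append _ _
    obtain ⟨A', p', hA', he, hp'⟩ := dec w _ h1
    have h2 : F p = F p' := by
      have := congrArg F he
      rw [F_append, F_append, F_append, F_app, F_app, hl.2] at this
      simpa using this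
    have h3 := PP_inj p hp p' hp' h2
    subst h3
    have hlen : (app g A').length = (app g A).length + l.length := by
      have := congrArg List.length he
      simp only [List.length_append] at this
      omega
    have hlp := List.length_pos_of_ne_nil hl.1
    have h4 : A <+: A' := by
      rcases List.prefix_or_prefix_of_prefix hA hA' with h | h
      · exact h
      · have := app_len_mono h
        omega
    obtain ⟨v, rfl⟩ := h4
    have h5 : app g v ++ p = p ++ l := by
      rw [app_append, List.append_assoc, List.append_assoc, List.append_cancel_left_eq] at he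
      exact he.symm
    obtain ⟨V, hV1, hV2⟩ := ih (A ++ v) hA' (by
      rw [List.flatten_cons, ← List.append_assoc, he] at hpre
      exact hpre) (fun l hl => hL l (by simp [hl]))
    exact ⟨v :: V, by rw [List.flatten_cons, ← List.append_assoc]; exact hV1,
      List.Forall₂.cons h5 hV2⟩

/-! ### Counting letters -/

lemma count_a (v : List AB) : (app g v).count a = 4 * v.count a + 3 * v.count b := by
  induction v with
  | nil => rfl
  | cons c v ih =>
    rw [app_cons, List.count_append, ih]
    cases c
    · simp [g]; omega
    · simp [g]; omega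

lemma count_b (v : List AB) : (app g v).count b = v.count a + 4 * v.count b := by
  induction v with
  | nil => rfl
  | cons c v ih =>
    rw [app_cons, List.count_append, ih]
    cases c
    · simp [g]; omega
    · simp [g]; omega

lemma perm_of_perm {p v v' l l' : List AB} (h : app g v ++ p = p ++ l)
    (h' : app g v' ++ p = p ++ l') (hl : l.Perm l') : v.Perm v' := by
  have e1 := congrArg (List.count a) h
  have e2 := congrArg (List.count b) h
  have e3 := congrArg (List.count a) h'
  have e4 := congrArg (List.count b) h'
  have e5 := hl.count_eq a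
  have e6 := hl.count_eq b
  simp only [List.count_append, count_a, count_b] at e1 e2 e3 e4
  rw [List.perm_iff_count]
  intro c
  cases c
  · omega
  · omega

lemma ne_nil_of {p v l : List AB} (h : app g v ++ p = p ++ l) (hl : l ≠ []) : v ≠ [] := by
  rintro rfl
  have := congrArg List.length h
  simp only [app_nil, List.nil_append, List.length_append] at this
  have := List.length_pos_of_ne_nil hl
  omega

lemma forall2_left {α β : Type*} {R : α → β → Prop} {V : List α} {L : List β}
    (h : List.Forall₂ R V L) {v : α} (hv : v ∈ V) : ∃ l ∈ L, R v l := by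
  induction h with
  | nil => simp at hv
  | cons h1 h2 ih =>
    rcases List.mem_cons.mp hv with rfl | hv
    · exact ⟨_, by simp, h1⟩
    · obtain ⟨l, hl, h3⟩ := ih hv
      exact ⟨l, by simp [hl], h3⟩

lemma F_perm {l l' : List AB} (h : l.Perm l') : F l = F l' := by
  unfold F; exact (h.map fl).sum_eq

lemma hit5 : ∀ y d : ZMod 13, d ≠ 0 → ∃ j : Fin 13, y + (j.val : ZMod 13) * d = 5 := by decide

lemma miss5 : ∀ p ∈ PP, F p ≠ 5 := by decide

lemma F_flatten_take (L : List (List AB)) (d : ZMod 13) (hL : ∀ l ∈ L, F l = d) :
    ∀ j ≤ L.length, F (L.take j).flatten = j * d := by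
  intro j
  induction j with
  | zero => intro _; simp [F_nil]
  | succ j ih =>
    intro hj
    rw [List.take_succ_eq_append_getElem hj, List.flatten_append, F_append, ih (by omega)]
    simp only [List.flatten_cons, List.flatten_nil, List.append_nil]
    rw [hL _ (List.getElem_mem _)]
    push_cast; ring

theorem morphismFree : MorphismFree 12 g := by
  intro w hw v hv hpow
  obtain ⟨L, hlen, rfl, hne, hperm⟩ := hpow
  obtain ⟨Y, Z, hYZ⟩ := hv
  have hpre : Y ++ L.flatten <+: app g w := ⟨Z, hYZ⟩
  -- weights of the blocks
  have hL0 : L ≠ [] := by rintro rfl; simp at hlen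
  obtain ⟨l0, hl0⟩ := List.exists_mem_of_ne_nil L hL0
  have hd : ∀ l ∈ L, F l = F l0 := fun l hl => F_perm (hperm l hl l0 hl0)
  have hzero : F l0 = 0 := by
    by_contra hne0
    obtain ⟨j, hj⟩ := hit5 (F Y) (F l0) hne0
    have h1 : Y ++ (L.take j.val).flatten <+: app g w := by
      refine List.IsPrefix.trans ?_ hpre
      rw [List.prefix_append_right_inj]
      conv_rhs => rw [← List.take_append_drop j.val L, List.flatten_append]
      exact List.prefix_append _ _
    obtain ⟨p, hp, hFp⟩ := F_mem w _ h1
    rw [F_append, F_flatten_take L (F l0) hd j.val (by omega), hj] at hFp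
    exact miss5 p hp hFp.symm
  obtain ⟨A, p, hA, rfl, hp⟩ := dec w Y (List.IsPrefix.trans (List.prefix_append _ _) hpre)
  obtain ⟨V, hV1, hV2⟩ := pull w p hp L A hA hpre
    (fun l hl => ⟨hne l hl, by rw [hd l hl, hzero]⟩)
  refine hw V.flatten ?_ ⟨V, ?_, rfl, ?_, ?_⟩
  · obtain ⟨Z', hZ'⟩ := hV1
    exact ⟨A, Z', hZ'⟩
  · rw [hV2.length_eq, hlen]
  · intro v hv
    obtain ⟨l, hl, h⟩ := forall2_left hV2 hv
    exact ne_nil_of h (hne l hl)
  · intro v hv v' hv'
    obtain ⟨l, hl, h⟩ := forall2_left hV2 hv
    obtain ⟨l', hl', h'⟩ := forall2_left hV2 hv'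
    exact perm_of_perm h h' (hperm l hl l' hl')

/-! ### Words without `bb` -/

/-- No two consecutive letters `b`. -/
def NoBB (w : List AB) : Prop := ¬ [b, b] <:+: w

/-- No factor `u^5` with `u` nonempty. -/
def Free5 (w : List AB) : Prop := ∀ u, u ≠ [] → ¬ u ++ u ++ u ++ u ++ u <:+: w

lemma NoBB.sub {v w : List AB} (h : NoBB w) (hv : v <:+: w) : NoBB v :=
  fun h' => h (h'.trans hv)

lemma Free5.sub {v w : List AB} (h : Free5 w) (hv : v <:+: w) : Free5 v :=
  fun u hu h' => h u hu (h'.trans hv)

lemma infix_cons_bb {c : AB} {w : List AB} :
    [b, b] <:+: c :: w ↔ (c = b ∧ w.head? = some b) ∨ [b, b] <:+: w := by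
  rw [List.infix_cons_iff]
  apply or_congr_left
  cases c <;> cases w <;> simp
  rename_i x w
  cases x <;> simp

lemma head_app (w : List AB) : (app g w).head? = w.head? := by
  cases w with
  | nil => rfl
  | cons c w => rw [app_cons]; cases c <;> rfl

lemma noBB_app {w : List AB} (h : NoBB w) : NoBB (app g w) := by
  induction w with
  | nil => unfold NoBB; simp [app_nil]
  | cons c w ih =>
    have h1 := ih (h.sub (List.suffix_cons c w).isInfix)
    have h2 : ¬ (c = b ∧ w.head? = some b) := fun h' => h (infix_cons_bb.mpr (Or.inl h'))
    unfold NoBB at h1 ⊢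
    rw [app_cons]
    cases c
    · simp only [g, List.cons_append, List.nil_append, infix_cons_bb]
      simp [h1]
    · simp only [g, List.cons_append, List.nil_append, infix_cons_bb, head_app]
      simp at h2
      simp [h1, h2]

/-! ### Long fifth powers -/

lemma app_inj : ∀ v w : List AB, app g v = app g w → v = w := by
  intro v
  induction v with
  | nil =>
    intro w h
    cases w with
    | nil => rfl
    | cons c w => rw [app_cons] at h; cases c <;> simp [g, app_nil] at h
  | cons c v ih =>
    intro w h
    cases w with
    | nil => rw [app_cons] at h; cases c <;> simp [g, app_nil] at h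
    | cons d w =>
      have h1 : c = d := by
        have := congrArg List.head? h
        rw [head_app, head_app] at this
        simpa using this
      subst h1
      rw [app_cons, app_cons, List.append_cancel_left_eq] at h
      rw [ih w h]

lemma force : ∀ c : AB, ∀ d : ZMod 13, d ≠ 0 →
    ∃ r : Fin 8, ∃ j : Fin 5, r.val ≤ (g c).length ∧
      ∀ p ∈ PP, F ((g c).take r.val) + (j.val : ZMod 13) * d ≠ F p := by
  intro c; cases c <;> decide

/-- `u^j` -/
def pw (u : List AB) : ℕ → List AB
  | 0 => []
  | n + 1 => u ++ pw u n

lemma F_pw (u : List AB) (j : ℕ) : F (pw u j) = j * F u := by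
  induction j with
  | zero => simp [pw, F_nil]
  | succ j ih => simp only [pw, F_append, ih]; push_cast; ring

lemma pw_add (u : List AB) (i j : ℕ) : pw u (i + j) = pw u i ++ pw u j := by
  induction i with
  | zero => simp [pw]
  | succ i ih => rw [Nat.succ_add]; simp only [pw, ih, List.append_assoc]

lemma pw_five (u : List AB) : pw u 5 = u ++ u ++ u ++ u ++ u := by simp [pw]

lemma long (w u Y : List AB) (hw : Free5 w) (hu : 13 ≤ u.length) :
    ¬ Y ++ pw u 5 <+: app g w := by
  intro hpre
  have hune : u ≠ [] := by rintro rfl; simp at hu
  -- the weight of the period vanishes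
  have hF : F u = 0 := by
    by_contra hne
    have hYu : Y ++ u <+: app g w := by
      refine List.IsPrefix.trans ?_ hpre
      rw [List.prefix_append_right_inj]
      exact List.prefix_append _ _
    obtain ⟨C, hC, hYC, hlen⟩ := ceil w Y (List.IsPrefix.trans (List.prefix_append _ _) hYu)
    obtain ⟨D, rfl⟩ := hC
    have hYl := hYu.length_le
    rw [List.length_append] at hYl
    cases D with
    | nil =>
      rw [List.append_nil] at hYl
      omega
    | cons c D =>
      obtain ⟨r, j, hr, hrj⟩ := force c (F u) hne
      have hg := (glen c).2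
      obtain ⟨s, hs⟩ := hYC
      have hsl : s.length ≤ 6 := by
        have := congrArg List.length hs
        rw [List.length_append] at this; omega
      -- `s ++ take r (g c)` is a prefix of `u`
      have h1 : Y ++ (s ++ (g c).take r.val) <+: app g (C ++ c :: D) := by
        rw [app_append, ← hs, app_cons, ← List.append_assoc, List.prefix_append_right_inj]
        exact List.IsPrefix.trans (List.take_prefix _ _) (List.prefix_append _ _)
      have h2 : Y ++ (s ++ (g c).take r.val) <+: Y ++ u := by
        refine List.prefix_of_prefix_length_le h1 hYu ?_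
        simp only [List.length_append, List.length_take]
        omega
      rw [List.prefix_append_right_inj] at h2
      have h3 : Y ++ (pw u j.val ++ (s ++ (g c).take r.val)) <+: app g (C ++ c :: D) := by
        refine List.IsPrefix.trans ?_ hpre
        rw [List.prefix_append_right_inj]
        have : pw u 5 = pw u j.val ++ (u ++ pw u (4 - j.val)) := by
          have h5 : 5 = j.val + ((4 - j.val) + 1) := by omega
          conv_lhs => rw [h5, pw_add]
          rfl
        rw [this, List.prefix_append_right_inj]
        exact List.IsPrefix.trans h2 (List.prefix_append _ _)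
      obtain ⟨p, hp, hFp⟩ := F_mem _ _ h3
      have h4 : F Y + F s = 0 := by
        have := congrArg F hs
        rwa [F_append, F_app] at this
      refine hrj p hp ?_
      rw [← hFp, F_append, F_append, F_append, F_pw]
      linear_combination - h4
  obtain ⟨A, p, hA, rfl, hp⟩ := dec w Y (List.IsPrefix.trans (List.prefix_append _ _) hpre)
  obtain ⟨V, hV1, hV2⟩ := pull w p hp [u, u, u, u, u] A hA (by simpa [pw] using hpre)
    (fun l hl => by
      simp only [List.mem_cons, List.not_mem_nil, or_false, or_self] at hl
      subst hl; exact ⟨hune, hF⟩)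
  match V, hV1, hV2 with
  | [v1, v2, v3, v4, v5], hV1, hV2 =>
    simp only [List.forall₂_cons, List.forall₂_nil_left_iff, and_true] at hV2
    obtain ⟨e1, e2, e3, e4, e5⟩ := hV2
    have k2 : v2 = v1 := app_inj _ _ (List.append_cancel_right (e2.trans e1.symm))
    have k3 : v3 = v1 := app_inj _ _ (List.append_cancel_right (e3.trans e1.symm))
    have k4 : v4 = v1 := app_inj _ _ (List.append_cancel_right (e4.trans e1.symm))
    have k5 : v5 = v1 := app_inj _ _ (List.append_cancel_right (e5.trans e1.symm))
    subst k2 k3 k4 k5
    obtain ⟨Z, hZ⟩ := hV1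
    exact hw _ (ne_nil_of e1 hune) ⟨A, Z, by rw [← hZ]; simp⟩

/-! ### Short fifth powers: a finite check -/

/-- binary code of a word -/
def code : List AB → ℕ
  | [] => 0
  | a :: X => 2 * code X
  | b :: X => 2 * code X + 1

/-- letter comparison -/
def eqb : AB → AB → Bool
  | a, a => true
  | b, b => true
  | _, _ => false

/-- prefix test -/
def pre : List AB → List AB → Bool
  | [], _ => true
  | x :: X, y :: Y => eqb x y && pre X Y
  | _ :: _, [] => false

/-- local condition at the beginning of a word -/
def okHead (D : List AB) : Bool :=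
  !(pre [b, b] D) && !(pre [a, a, a, a, a] D) &&
  !(pre [a, b, a, b, a, b, a, b, a, b] D) && !(pre [b, a, b, a, b, a, b, a, b, a] D)

/-- all candidates of length `n` -/
def gen : ℕ → List (List AB)
  | 0 => [[]]
  | n + 1 => ((gen n).flatMap fun C => [a :: C, b :: C]).filter okHead

/-- the word of length `len` and code `N` has no fifth power of a word of length at most 12
starting at a position at most 6 -/
def chkN (len N : ℕ) : Bool :=
  (List.range 7).all fun q => (List.range 12).all fun P =>
    !((N / 2 ^ q) % 2 ^ (4 * (P + 1)) == (N / 2 ^ (q + (P + 1))) % 2 ^ (4 * (P + 1))) ||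
      Nat.blt len (q + 5 * (P + 1))

lemma finite_check :
    ∀ m ∈ List.range 15, ∀ C ∈ gen m, chkN (app g C).length (code (app g C)) = true := by
  decide +kernel

lemma pre_prefix : ∀ X D : List AB, pre X D = true → X <+: D := by
  intro X
  induction X with
  | nil => intro D _; exact List.nil_prefix
  | cons x X ih =>
    intro D h
    cases D with
    | nil => simp [pre] at h
    | cons y D =>
      rw [pre, Bool.and_eq_true] at h
      have h1 : x = y := by
        have := h.1
        cases x <;> cases y <;> simp_all [eqb]
      subst h1
      exact (List.prefix_cons_inj x).mpr (ih D h.2)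

lemma okHead_of {D : List AB} (h1 : NoBB D) (h2 : Free5 D) : okHead D = true := by
  unfold okHead
  simp only [Bool.and_eq_true, Bool.not_eq_true']
  refine ⟨⟨⟨?_, ?_⟩, ?_⟩, ?_⟩
  · exact Bool.eq_false_iff.mpr fun h => h1 (pre_prefix _ _ h).isInfix
  · exact Bool.eq_false_iff.mpr fun h => h2 [a] (by simp) (pre_prefix _ _ h).isInfix
  · exact Bool.eq_false_iff.mpr fun h => h2 [a, b] (by simp) (pre_prefix _ _ h).isInfix
  · exact Bool.eq_false_iff.mpr fun h => h2 [b, a] (by simp) (pre_prefix _ _ h).isInfix

lemma mem_gen (C : List AB) (h1 : NoBB C) (h2 : Free5 C) : C ∈ gen C.length := by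
  induction C with
  | nil => simp [gen]
  | cons c C ih =>
    have hs : C <:+: c :: C := (List.suffix_cons c C).isInfix
    have := ih (h1.sub hs) (h2.sub hs)
    rw [List.length_cons, gen, List.mem_filter]
    refine ⟨List.mem_flatMap.mpr ⟨C, this, ?_⟩, okHead_of h1 h2⟩
    cases c <;> simp

lemma code_append (X Y : List AB) : code (X ++ Y) = code X + 2 ^ X.length * code Y := by
  induction X with
  | nil => simp [code]
  | cons c X ih => cases c <;> simp only [List.cons_append, code, ih, List.length_cons] <;> ring

lemma code_lt (X : List AB) : code X < 2 ^ X.length := by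
  induction X with
  | nil => simp [code]
  | cons c X ih => cases c <;> simp only [code, List.length_cons, pow_succ] <;> omega

lemma code_div (X Y : List AB) : code (X ++ Y) / 2 ^ X.length = code Y := by
  rw [code_append, Nat.add_mul_div_left _ _ (by positivity), Nat.div_eq_of_lt (code_lt X),
    zero_add]

lemma code_mod (X Y : List AB) : code (X ++ Y) % 2 ^ X.length = code X := by
  rw [code_append, Nat.add_mul_mod_self_left, Nat.mod_eq_of_lt (code_lt X)]

lemma chkN_sound {X : List AB} (h : chkN X.length (code X) = true) (p u : List AB)
    (hp : p.length ≤ 6) (hu : u ≠ []) (hul : u.length ≤ 12) : ¬ p ++ pw u 5 <+: X := by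
  rintro ⟨Z, rfl⟩
  have hpos := List.length_pos_of_ne_nil hu
  unfold chkN at h
  rw [List.all_eq_true] at h
  have h1 := h p.length (List.mem_range.mpr (by omega))
  rw [List.all_eq_true] at h1
  have h2 := h1 (u.length - 1) (List.mem_range.mpr (by omega))
  have e1 : u.length - 1 + 1 = u.length := by omega
  rw [e1, Bool.or_eq_true] at h2
  have l5 : (pw u 5).length = 5 * u.length := by simp [pw]; omega
  have l4 : (pw u 4).length = 4 * u.length := by simp [pw]; omega
  rcases h2 with h2 | h2
  · rw [Bool.not_eq_true', beq_eq_false_iff_ne] at h2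
    apply h2
    have e2 : pw u 5 = pw u 4 ++ u := by
      have : pw u (4 + 1) = pw u 4 ++ pw u 1 := pw_add u 4 1
      simpa [pw] using this
    have e3 : pw u 5 = u ++ pw u 4 := rfl
    have a1 : code (p ++ pw u 5 ++ Z) / 2 ^ p.length = code (pw u 4 ++ (u ++ Z)) := by
      rw [List.append_assoc, code_div, e2, List.append_assoc]
    have a2 : code (p ++ pw u 5 ++ Z) / 2 ^ (p.length + u.length) = code (pw u 4 ++ Z) := by
      rw [← List.length_append, e3]
      have : p ++ (u ++ pw u 4) ++ Z = (p ++ u) ++ (pw u 4 ++ Z) := by simp
      rw [this, code_div]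
    rw [a1, a2, ← l4, code_mod, code_mod]
  · have h3 : Nat.blt (p ++ pw u 5 ++ Z).length (p.length + 5 * u.length) = true := h2
    have h4 := Nat.le_of_ble_eq_true h3
    simp only [List.length_append, l5] at h4
    omega

lemma len_app (C : List AB) : 5 * C.length ≤ (app g C).length := by
  induction C with
  | nil => simp
  | cons c C ih =>
    rw [app_cons, List.length_append, List.length_cons]
    have := (glen c).1
    omega

lemma PP_len : ∀ p ∈ PP, p.length ≤ 6 := by decide

lemma short (w u Y : List AB) (hw : Free5 w) (hb : NoBB w) (hu : u ≠ []) (hul : u.length ≤ 12) :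
    ¬ Y ++ pw u 5 <+: app g w := by
  intro hpre
  obtain ⟨A, p, hA, rfl, hp⟩ := dec w Y (List.IsPrefix.trans (List.prefix_append _ _) hpre)
  have hpl := PP_len p hp
  obtain ⟨B, rfl⟩ := hA
  rw [app_append, List.append_assoc, List.prefix_append_right_inj] at hpre
  have l5 : (pw u 5).length = 5 * u.length := by simp [pw]; omega
  have h1 : p ++ pw u 5 <+: app g (B.take 14) := by
    have h2 : app g (B.take 14) <+: app g B := by
      conv_rhs => rw [← List.take_append_drop 14 B, app_append]
      exact List.prefix_append _ _
    by_cases hB : B.length ≤ 14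
    · rw [List.take_of_length_le hB]; exact hpre
    · refine List.prefix_of_prefix_length_le hpre h2 ?_
      have := len_app (B.take 14)
      rw [List.length_take, min_eq_left (by omega)] at this
      rw [List.length_append, l5]
      omega
  have hin : B.take 14 <:+: A ++ B :=
    (List.take_prefix 14 B).isInfix.trans (List.suffix_append A B).isInfix
  have h3 := finite_check (B.take 14).length
    (List.mem_range.mpr (by have := List.length_take_le 14 B; omega)) (B.take 14)
    (mem_gen _ (hb.sub hin) (hw.sub hin))
  exact chkN_sound h3 p u hpl hu hul h1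

lemma free5_app {w : List AB} (hw : Free5 w) (hb : NoBB w) : Free5 (app g w) := by
  rintro u hu ⟨Y, Z, h⟩
  have hpre : Y ++ pw u 5 <+: app g w := ⟨Z, by rw [pw_five]; exact h⟩
  by_cases hl : 13 ≤ u.length
  · exact long w u Y hw hl hpre
  · exact short w u Y hw hb hu (by omega) hpre

/-! ### The fixed point -/

lemma iter_good (n : ℕ) : Free5 (iter g n [a]) ∧ NoBB (iter g n [a]) := by
  induction n with
  | zero =>
    refine ⟨?_, ?_⟩
    · intro u hu h
      have := h.length_le
      have := List.length_pos_of_ne_nil hu
      simp only [List.length_append, iter, List.length_cons, List.length_nil] at *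
      omega
    · intro h
      have := h.length_le
      simp [iter] at this
  | succ n ih => exact ⟨free5_app ih.1 ih.2, noBB_app ih.2⟩

lemma iter_len (n : ℕ) : n + 1 ≤ (iter g n [a]).length := by
  induction n with
  | zero => simp [iter]
  | succ n ih =>
    have := len_app (iter g n [a])
    rw [iter]; omega

lemma iter_prefix_succ (n : ℕ) : iter g n [a] <+: iter g (n + 1) [a] := by
  induction n with
  | zero => exact ⟨[a, b, a, a], rfl⟩
  | succ n ih =>
    obtain ⟨Z, hZ⟩ := ih
    refine ⟨app g Z, ?_⟩
    rw [iter, ← app_append, hZ]
    rfl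

lemma iter_prefix {m n : ℕ} (h : m ≤ n) : iter g m [a] <+: iter g n [a] := by
  induction n, h using Nat.le_induction with
  | base => exact List.prefix_rfl
  | succ n _ ih => exact ih.trans (iter_prefix_succ n)

/-- The fixed point. -/
def fix (i : ℕ) : AB := (iter g i [a]).getD i a

lemma fix_eq (n i : ℕ) (hi : i < (iter g n [a]).length) : (iter g n [a])[i] = fix i := by
  have hl := iter_len i
  unfold fix
  rw [List.getD_eq_getElem _ _ (by omega)]
  rcases le_total n i with h | h
  · exact (iter_prefix h).getElem hi
  · exact ((iter_prefix h).getElem (by omega)).symm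

/-- The factor of length `n` at position `i` of an infinite word. -/
def factor (x : ℕ → AB) (i n : ℕ) : List AB := (List.range n).map fun t => x (i + t)

lemma factor_sub (i n : ℕ) : factor fix i n <:+: iter g (i + n) [a] := by
  have hl := iter_len (i + n)
  have h : factor fix i n = ((iter g (i + n) [a]).drop i).take n := by
    apply List.ext_getElem
    · simp only [factor, List.length_map, List.length_range, List.length_take, List.length_drop]
      omega
    · intro t h1 h2
      simp only [factor, List.length_map, List.length_range] at h1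
      simp only [factor, List.getElem_map, List.getElem_range, List.getElem_take,
        List.getElem_drop]
      rw [fix_eq]
  rw [h]
  exact (List.take_prefix _ _).isInfix.trans (List.drop_suffix _ _).isInfix

/-- **MP_8f8c07, Q1.** The morphism `a ↦ aabaa`, `b ↦ bababab` is abelian 12-power free; its
fixed point `x` starting with `a` is defined, is 5-power free and contains no factor `bb`. -/
theorem result :
    ∃ img : AB → List AB, img a = [a, a, b, a, a] ∧ img b = [b, a, b, a, b, a, b] ∧
      MorphismFree 12 img ∧
      Filter.Tendsto (fun n => (iter img n [a]).length) Filter.atTop Filter.atTop ∧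
      ∃ x : ℕ → AB,
        (∀ n, iter img n [a] = factor x 0 (iter img n [a]).length) ∧
        (∀ i n u, u ≠ [] → factor x i n ≠ u ++ u ++ u ++ u ++ u) ∧
        (∀ i, factor x i 2 ≠ [b, b]) := by
  refine ⟨g, rfl, rfl, morphismFree, ?_, fix, ?_, ?_, ?_⟩
  · exact Filter.tendsto_atTop_mono (fun n => (Nat.le_succ n).trans (iter_len n))
      Filter.tendsto_id
  · intro n
    apply List.ext_getElem
    · simp [factor]
    · intro t h1 h2
      simp only [factor, List.getElem_map, List.getElem_range, zero_add]
      exact fix_eq n t h1
  · intro i n u hu h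
    have h1 := factor_sub i n
    rw [h] at h1
    exact (iter_good (i + n)).1 u hu h1
  · intro i h
    have h1 := factor_sub i 2
    rw [h] at h1
    exact (iter_good (i + 2)).2 h1

end Pool.Agent.Results.MP_8f8c07_co.FivePower
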