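import Mathlib

/-!
# Flexibility of (purely) morphic ternary square-free words (helper file for MP_0e1483)

A 96-uniform morphism whose fixed point is square-free and has flexibility `3/16`, and the upper
bound `3/16` for every ternary square-free word.
-/

set_option autoImplicit false

namespace Pool.Agent.H159.Flexibility

/-! ### Definitions -/

/-- `u` has no factor `xx` with `x` nonempty. -/
def SquareFree (u : ℕ → Fin 3) : Prop :=
  ¬ ∃ i p, 0 < p ∧ ∀ t < p, u (i + t) = u (i + p + t)

/-- `P` is a wildcard set for `u`: after replacing the letters at the positions in `P` by holes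
there is no partial square of period at least 2. -/
def IsWildcard (u : ℕ → Fin 3) (P : Set ℕ) : Prop :=
  ¬ ∃ i m, 2 ≤ m ∧ ∀ t < m, i + t ∈ P ∨ i + m + t ∈ P ∨ u (i + t) = u (i + m + t)

/-- The upper density of a set of positions. -/
noncomputable def upperDensity (P : Set ℕ) : ℝ :=
  Filter.limsup (fun n : ℕ => ((P ∩ Set.Iio n).ncard : ℝ) / n) Filter.atTop

/-- The flexibility of `u`. -/
noncomputable def flex (u : ℕ → Fin 3) : ℝ :=
  sSup {d : ℝ | ∃ P : Set ℕ, IsWildcard u P ∧ d = upperDensity P}

/-- The iterates of the morphism with letter images `φ`. -/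
def iter {A : Type*} (φ : A → List A) : ℕ → List A → List A
  | 0, w => w
  | n + 1, w => (iter φ n w).flatMap φ

/-- `φ` is prolongable on the letter `x` and `u = φ^ω(x)`. -/
def Generates {A : Type*} (φ : A → List A) (x : A) (u : ℕ → A) : Prop :=
  (∃ v, v ≠ [] ∧ φ x = x :: v) ∧
  Filter.Tendsto (fun n => (iter φ n [x]).length) Filter.atTop Filter.atTop ∧
  ∀ n, iter φ n [x] = (List.range (iter φ n [x]).length).map u

/-- `u = φ^ω(x)` for some morphism `φ` on the ternary alphabet. -/
def PurelyMorphic (u : ℕ → Fin 3) : Prop :=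
  ∃ (φ : Fin 3 → List (Fin 3)) (x : Fin 3), Generates φ x u

/-- `u = τ(φ^ω(x))` for some morphism `φ` on a finite alphabet and a coding `τ`. -/
def Morphic (u : ℕ → Fin 3) : Prop :=
  ∃ (A : Type) (_ : Fintype A) (φ : A → List A) (x : A) (v : ℕ → A) (τ : A → Fin 3),
    Generates φ x v ∧ ∀ n, u n = τ (v n)

/-! ### The upper bound -/

/-- compatibility of symbols, `3` is the hole -/
def comp (x y : Fin 4) : Bool := x == 3 || y == 3 || x == y

/-- the (reversed) word `w` ends with a partial square of period `m` -/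
def sq (m : ℕ) (w : List (Fin 4)) : Bool :=
  (List.range m).all fun t => comp (w.getD t 0) (w.getD (t + m) 0)

/-- the (reversed) word `w` ends with equal letters or a partial square of period at least 2 -/
def badEnd (w : List (Fin 4)) : Bool :=
  (w.getD 0 0 != 3 && w.getD 0 0 == w.getD 1 3) ||
    (List.range (w.length / 2 - 1)).any fun m => sq (m + 2) w

/-- every way to extend the (reversed) word `w` with `h` holes by at most `f` letters
fails or reaches density at most `3/16` -/
def dead : ℕ → List (Fin 4) → ℕ → Bool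
  | 0, _, _ => false
  | f + 1, w, h => (List.finRange 4).all fun s =>
      Nat.ble (16 * (h + if s = 3 then 1 else 0)) (3 * (w.length + 1)) || badEnd (s :: w) ||
        dead f (s :: w) (h + if s = 3 then 1 else 0)

lemma dead_root : dead 26 [] 0 = true := by decide +kernel

section Upper

variable (u : ℕ → Fin 3) (P : Set ℕ)

open Classical in
/-- the symbol at position `n` -/
noncomputable def sym (n : ℕ) : Fin 4 := if n ∈ P then 3 else (u n).castSucc

/-- the reversed factor of length `n` at `i` -/
noncomputable def rw (i : ℕ) : ℕ → List (Fin 4)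
  | 0 => []
  | n + 1 => sym u P (i + n) :: rw i n

/-- number of holes -/
noncomputable def cnt (i : ℕ) : ℕ → ℕ
  | 0 => 0
  | n + 1 => cnt i n + if sym u P (i + n) = 3 then 1 else 0

lemma rw_length (i n : ℕ) : (rw u P i n).length = n := by
  induction n with
  | zero => rfl
  | succ n ih => simp [rw, ih]

lemma rw_getD (i n t : ℕ) (d : Fin 4) (ht : t < n) :
    (rw u P i n).getD t d = sym u P (i + (n - 1 - t)) := by
  induction n generalizing t with
  | zero => omega
  | succ n ih =>
    cases t with
    | zero => simp [rw]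
    | succ t =>
      rw [rw, List.getD_cons_succ, ih t (by omega)]
      congr 2; omega

lemma sym_eq_three {n : ℕ} : sym u P n = 3 ↔ n ∈ P := by
  unfold sym
  split_ifs with h
  · simp [h]
  · simp only [h, iff_false]
    have := (u n).castSucc_lt_last
    intro h3
    rw [h3] at this
    exact absurd this (by decide)

lemma comp_sym {m n : ℕ} (h : comp (sym u P m) (sym u P n) = true) :
    m ∈ P ∨ n ∈ P ∨ u m = u n := by
  unfold comp at h
  simp only [Bool.or_eq_true, beq_iff_eq, sym_eq_three] at h
  rcases h with (h | h) | h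
  · exact Or.inl h
  · exact Or.inr (Or.inl h)
  · by_cases hm : m ∈ P
    · exact Or.inl hm
    by_cases hn : n ∈ P
    · exact Or.inr (Or.inl hn)
    · simp only [sym, hm, hn, if_false] at h
      exact Or.inr (Or.inr (Fin.castSucc_injective 3 h))

variable {u P}

lemma not_badEnd (hu : SquareFree u) (hP : IsWildcard u P) (i n : ℕ) (hn : 1 ≤ n) :
    badEnd (rw u P i n) = false := by
  rw [Bool.eq_false_iff]
  intro hb
  unfold badEnd at hb
  rw [Bool.or_eq_true, Bool.and_eq_true, List.any_eq_true] at hb
  rcases hb with ⟨h1, h2⟩ | ⟨m, hm, hs⟩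
  · rw [bne_iff_ne] at h1
    rw [beq_iff_eq] at h2
    by_cases hn2 : 2 ≤ n
    · rw [rw_getD u P i n 0 0 (by omega)] at h1 h2
      rw [rw_getD u P i n 1 3 (by omega)] at h2
      have e1 : ¬ (i + (n - 1 - 0)) ∈ P := by
        intro h; exact h1 ((sym_eq_three u P).mpr h)
      have e2 : ¬ (i + (n - 1 - 1)) ∈ P := by
        intro h; rw [(sym_eq_three u P).mpr h] at h2; exact h1 h2
      have e3 : u (i + (n - 1 - 0)) = u (i + (n - 1 - 1)) := by
        simp only [sym, e1, e2, if_false] at h2
        exact Fin.castSucc_injective 3 h2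
      apply hu
      refine ⟨i + (n - 1 - 1), 1, one_pos, ?_⟩
      intro t ht
      have h0 : t = 0 := by omega
      subst h0
      have h4 : i + (n - 1 - 1) + 1 + 0 = i + (n - 1 - 0) := by omega
      rw [h4, e3]; rfl
    · have hn1 : n = 1 := by omega
      subst hn1
      simp only [rw] at h1 h2
      rw [List.getD_cons_succ, List.getD_nil] at h2
      exact h1 h2
  · rw [List.mem_range, rw_length] at hm
    apply hP
    refine ⟨i + (n - 2 * (m + 2)), m + 2, by omega, ?_⟩
    intro t ht
    unfold sq at hs
    rw [List.all_eq_true] at hs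
    have h1 := hs (m + 2 - 1 - t) (List.mem_range.mpr (by omega))
    rw [rw_getD u P i n _ 0 (by omega), rw_getD u P i n _ 0 (by omega)] at h1
    have h2 := comp_sym u P h1
    have e1 : i + (n - 1 - (m + 2 - 1 - t)) = i + (n - 2 * (m + 2)) + (m + 2) + t := by omega
    have e2 : i + (n - 1 - (m + 2 - 1 - t + (m + 2))) = i + (n - 2 * (m + 2)) + t := by omega
    rw [e1, e2] at h2
    rcases h2 with h | h | h
    · exact Or.inr (Or.inl h)
    · exact Or.inl h
    · exact Or.inr (Or.inr h.symm)

lemma dead_sound (hu : SquareFree u) (hP : IsWildcard u P) (i : ℕ) :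
    ∀ f n, dead f (rw u P i n) (cnt u P i n) = true →
      ∃ n', n < n' ∧ n' ≤ n + f ∧ 16 * cnt u P i n' ≤ 3 * n' := by
  intro f
  induction f with
  | zero => intro n h; simp [dead] at h
  | succ f ih =>
    intro n h
    rw [dead, List.all_eq_true] at h
    have h1 := h (sym u P (i + n)) (List.mem_finRange _)
    rw [Bool.or_eq_true, Bool.or_eq_true] at h1
    rcases h1 with (h1 | h1) | h1
    · have := Nat.le_of_ble_eq_true h1
      rw [rw_length] at this
      exact ⟨n + 1, by omega, by omega, this⟩
    · have h2 := not_badEnd hu hP i (n + 1) (by omega)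
      rw [rw] at h2
      rw [h2] at h1
      exact absurd h1 (by decide)
    · obtain ⟨n', a1, a2, a3⟩ := ih (n + 1) h1
      exact ⟨n', by omega, by omega, a3⟩

lemma cnt_add (i m n : ℕ) : cnt u P i (m + n) = cnt u P i m + cnt u P (i + m) n := by
  induction n with
  | zero => simp [cnt]
  | succ n ih => rw [← add_assoc, cnt, cnt, ih, add_assoc, add_assoc i m n]

lemma cnt_le (i n : ℕ) : cnt u P i n ≤ n := by
  induction n with
  | zero => simp [cnt]
  | succ n ih => rw [cnt]; split_ifs <;> omega

lemma cnt_bound (hu : SquareFree u) (hP : IsWildcard u P) (N : ℕ) :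
    ∃ s, s ≤ N ∧ N < s + 26 ∧ 16 * cnt u P 0 s ≤ 3 * s := by
  induction N with
  | zero => exact ⟨0, le_rfl, by omega, by simp [cnt]⟩
  | succ N ih =>
    obtain ⟨s, h1, h2, h3⟩ := ih
    by_cases h : N + 1 < s + 26
    · exact ⟨s, by omega, h, h3⟩
    · obtain ⟨n, a1, a2, a3⟩ := dead_sound hu hP s 26 0 dead_root
      refine ⟨s + n, by omega, by omega, ?_⟩
      rw [cnt_add, zero_add]
      omega

lemma ncard_eq_cnt (N : ℕ) : (P ∩ Set.Iio N).ncard = cnt u P 0 N := by
  induction N with
  | zero => simp [cnt]
  | succ N ih =>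
    rw [cnt, ← ih, zero_add]
    by_cases h : N ∈ P
    · have h1 : P ∩ Set.Iio (N + 1) = insert N (P ∩ Set.Iio N) := by
        ext x; simp only [Set.mem_inter_iff, Set.mem_Iio, Set.mem_insert_iff]
        constructor
        · rintro ⟨h1, h2⟩
          by_cases hx : x = N
          · exact Or.inl hx
          · exact Or.inr ⟨h1, by omega⟩
        · rintro (rfl | ⟨h1, h2⟩)
          · exact ⟨h, by omega⟩
          · exact ⟨h1, by omega⟩
      rw [h1, Set.ncard_insert_of_notMem (by simp) ((Set.finite_Iio N).inter_of_right P),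
        if_pos ((sym_eq_three u P).mpr h)]
    · have h1 : P ∩ Set.Iio (N + 1) = P ∩ Set.Iio N := by
        ext x; simp only [Set.mem_inter_iff, Set.mem_Iio]
        constructor
        · rintro ⟨h1, h2⟩
          refine ⟨h1, ?_⟩
          have : x ≠ N := by rintro rfl; exact h h1
          omega
        · rintro ⟨h1, h2⟩; exact ⟨h1, by omega⟩
      rw [h1, if_neg (fun h2 => h ((sym_eq_three u P).mp h2)), add_zero]

lemma ncard_bound (hu : SquareFree u) (hP : IsWildcard u P) (N : ℕ) :
    16 * (P ∩ Set.Iio N).ncard ≤ 3 * N + 416 := by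
  obtain ⟨s, h1, h2, h3⟩ := cnt_bound hu hP N
  rw [ncard_eq_cnt (u := u)]
  have h4 := cnt_add (u := u) (P := P) 0 s (N - s)
  have h5 := cnt_le (u := u) (P := P) (0 + s) (N - s)
  rw [show s + (N - s) = N by omega] at h4
  omega

lemma upperDensity_le (hu : SquareFree u) (hP : IsWildcard u P) : upperDensity P ≤ 3 / 16 := by
  unfold upperDensity
  have h1 : Filter.Tendsto (fun n : ℕ => (3 / 16 : ℝ) + 26 / n) Filter.atTop
      (nhds (3 / 16 + 0)) :=
    tendsto_const_nhds.add (tendsto_const_div_atTop_nhds_zero_nat 26)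
  rw [add_zero] at h1
  rw [← h1.limsup_eq]
  apply Filter.limsup_le_limsup
  · filter_upwards [Filter.eventually_gt_atTop 0] with n hn
    have hn' : (0 : ℝ) < n := by exact_mod_cast hn
    have h2 : (16 : ℝ) * ((P ∩ Set.Iio n).ncard : ℝ) ≤ 3 * n + 416 := by
      exact_mod_cast ncard_bound hu hP n
    rw [div_le_iff₀ hn', add_mul, div_mul_cancel₀ _ hn'.ne']
    linarith
  · exact Filter.isCoboundedUnder_le_of_le Filter.atTop (x := 0)
      (fun n => by positivity)
  · exact h1.isBoundedUnder_le

end Upper

/-! ### The morphism -/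

/-- the 16-letter block of the state `(x, y, z)` and the choice `c` -/
def blk (x y z : Fin 3) (c : Bool) : List (Fin 3) :=
  [x, y, z, x, z, y, x, y, z] ++ (bif c then [y, x, z, y, z, x, y] else [x, y, x, z, x, y, z])

/-- the image of a sequence of choices -/
def psi : Fin 3 → Fin 3 → Fin 3 → List Bool → List (Fin 3)
  | _, _, _, [] => []
  | x, y, z, c :: cs => blk x y z c ++ bif c then psi x z y cs else psi y x z cs

/-- the 96-uniform morphism -/
def img (s : Fin 3) : List (Fin 3) :=
  psi 0 1 2 (if s = 0 then [false, false, true, false, false, true]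
    else if s = 1 then [false, true, false, true, false, true]
    else [false, true, true, false, true, true])

/-- letter `r` of the image of `x` -/
def H (x : Fin 3) (r : ℕ) : Fin 3 := (img x).getD r 0

/-- the fixed point -/
def fix : ℕ → Fin 3
  | 0 => 0
  | n + 1 => H (fix ((n + 1) / 96)) ((n + 1) % 96)
decreasing_by omega

lemma img_len (x : Fin 3) : (img x).length = 96 := by
  fin_cases x <;> rfl

lemma fix_eq (k r : ℕ) (hr : r < 96) : fix (96 * k + r) = H (fix k) r := by
  rcases Nat.eq_zero_or_pos (96 * k + r) with h | h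
  · have hk : k = 0 := by omega
    have hr : r = 0 := by omega
    subst hk hr
    rw [h, fix]; decide
  · obtain ⟨n, hn⟩ : ∃ n, 96 * k + r = n + 1 := ⟨96 * k + r - 1, by omega⟩
    rw [hn, fix]
    have h1 : (n + 1) / 96 = k := by omega
    have h2 : (n + 1) % 96 = r := by omega
    rw [h1, h2]

/-- the hole positions -/
def hole (n : ℕ) : Bool := n % 16 == 0 || n % 16 == 2 || n % 16 == 9

lemma hole_mod (n : ℕ) : hole (n % 16) = hole n := by
  unfold hole; rw [Nat.mod_mod]

lemma hole_add (n k : ℕ) : hole (n + 16 * k) = hole n := by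
  unfold hole; rw [Nat.add_mul_mod_self_left]

/-! ### Bit planes -/

/-- binary encoding -/
def enc : List Bool → ℕ
  | [] => 0
  | b :: L => b.toNat + 2 * enc L

lemma testBit_enc (L : List Bool) (i : ℕ) : (enc L).testBit i = L.getD i false := by
  induction L generalizing i with
  | nil => simp [enc]
  | cons b L ih =>
    cases i with
    | zero => cases b <;> simp [enc, Nat.testBit_zero]
    | succ i =>
      rw [List.getD_cons_succ, ← ih i, Nat.testBit_succ, enc]
      congr 1
      cases b <;> simp only [Bool.toNat_false, Bool.toNat_true] <;> omega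

/-- positions of the letter `c` -/
def pl (c : Fin 3) (L : List (Fin 3)) : ℕ := enc (L.map fun x => x == c)

/-- positions without hole -/
def nh (n : ℕ) : ℕ := enc ((List.range n).map fun i => !hole i)

lemma testBit_pl (c : Fin 3) (L : List (Fin 3)) (i : ℕ) (hi : i < L.length) :
    (pl c L).testBit i = (L.getD i 0 == c) := by
  rw [pl, testBit_enc, List.getD_eq_getElem _ _ (by simpa using hi),
    List.getD_eq_getElem _ _ hi, List.getElem_map]

lemma testBit_nh (n i : ℕ) (hi : i < n) : (nh n).testBit i = !hole i := by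
  rw [nh, testBit_enc, List.getD_eq_getElem _ _ (by simpa using hi)]
  simp

lemma testBit_nh_false (n i : ℕ) (hi : ¬ i < n) : (nh n).testBit i = false := by
  rw [nh, testBit_enc, List.getD_eq_default]
  simpa using hi

/-- all runs: bit `i` is set iff bits `i, …, i + 2^k - 1` of `z` are set -/
def runs (z : ℕ) : ℕ → ℕ
  | 0 => z
  | k + 1 => runs z k &&& (runs z k >>> 2 ^ k)

lemma testBit_runs (z i : ℕ) : ∀ k, (∀ t < 2 ^ k, z.testBit (i + t) = true) →
    (runs z k).testBit i = true := by
  intro k
  induction k generalizing i with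
  | zero => intro h; exact h 0 (by norm_num)
  | succ k ih =>
    intro h
    have hp : 2 ^ (k + 1) = 2 ^ k + 2 ^ k := by ring
    rw [runs, Nat.testBit_and, Nat.testBit_shiftRight, ih i (fun t ht => h t (by omega)),
      ih (2 ^ k + i) (fun t ht => by
        have := h (2 ^ k + t) (by omega)
        rwa [show i + (2 ^ k + t) = 2 ^ k + i + t by omega] at this)]
    rfl

/-- no run of length `m` starting at a position below 96 -/
def noRun (z m : ℕ) : Bool :=
  (runs z m.log2 &&& (runs z m.log2 >>> (m - 2 ^ m.log2))) % 2 ^ 96 == 0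

lemma noRun_sound {z m i : ℕ} (h : noRun z m = true) (hm : 1 ≤ m) (hi : i < 96) :
    ¬ ∀ t < m, z.testBit (i + t) = true := by
  intro hz
  have h1 : 2 ^ m.log2 ≤ m := Nat.log2_self_le (by omega)
  have h2 : m < 2 ^ (m.log2 + 1) := Nat.lt_log2_self
  rw [pow_succ] at h2
  unfold noRun at h
  rw [beq_iff_eq] at h
  have h3 : ((runs z m.log2 &&& (runs z m.log2 >>> (m - 2 ^ m.log2))) % 2 ^ 96).testBit i
      = true := by
    rw [Nat.testBit_mod_two_pow, Nat.testBit_and, Nat.testBit_shiftRight,
      testBit_runs z i _ (fun t ht => hz t (by omega)),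
      testBit_runs z (m - 2 ^ m.log2 + i) _ (fun t ht => by
        have := hz (m - 2 ^ m.log2 + t) (by omega)
        rwa [show i + (m - 2 ^ m.log2 + t) = m - 2 ^ m.log2 + i + t by omega] at this)]
    simp [hi]
  rw [h] at h3
  simp at h3

/-- mismatch mask of the words with planes `(a, b)` and `(a', b')` -/
def mis (a b h a' b' h' m : ℕ) : ℕ :=
  ((a ^^^ (a' >>> m)) ||| (b ^^^ (b' >>> m))) &&& (h &&& (h' >>> m))

lemma testBit_mis (L L' : List (Fin 3)) (n m i : ℕ) (hi : i < L.length)
    (hi' : m + i < L'.length) (h : hole i = true ∨ hole (m + i) = true ∨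
      L.getD i 0 = L'.getD (m + i) 0) :
    (mis (pl 0 L) (pl 1 L) (nh n) (pl 0 L') (pl 1 L') (nh n) m).testBit i = false := by
  unfold mis
  rw [Nat.testBit_and, Nat.testBit_or, Nat.testBit_xor, Nat.testBit_xor, Nat.testBit_and,
    Nat.testBit_shiftRight, Nat.testBit_shiftRight, Nat.testBit_shiftRight,
    testBit_pl _ _ _ hi, testBit_pl _ _ _ hi, testBit_pl _ _ _ hi', testBit_pl _ _ _ hi']
  rcases h with h | h | h
  · by_cases hn : i < n
    · rw [testBit_nh _ _ hn, h]; simp
    · rw [testBit_nh_false _ _ hn]; simp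
  · by_cases hn : m + i < n
    · rw [testBit_nh _ _ hn, h]; simp
    · rw [testBit_nh_false _ _ hn]; simp
  · rw [h]; simp

/-- there is no partial square of a period in `ms` starting in the first block of the image
of `v` -/
def chk (v : List (Fin 3)) (ms : List ℕ) : Bool :=
  ms.all fun m => noRun ((2 ^ (v.length * 96 - m) - 1) ^^^
    (mis (pl 0 (v.flatMap img)) (pl 1 (v.flatMap img)) (nh (v.length * 96))
      (pl 0 (v.flatMap img)) (pl 1 (v.flatMap img)) (nh (v.length * 96)) m) %
      2 ^ (v.length * 96 - m)) m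

lemma flatMap_len (v : List (Fin 3)) : (v.flatMap img).length = v.length * 96 := by
  induction v with
  | nil => rfl
  | cons x v ih => rw [List.flatMap_cons, List.length_append, ih, img_len, List.length_cons]; ring

lemma flatMap_getD (v : List (Fin 3)) : ∀ (j r : ℕ), j < v.length → r < 96 →
    (v.flatMap img).getD (96 * j + r) 0 = H (v.getD j 0) r := by
  induction v with
  | nil => intro j r hj; simp at hj
  | cons x v ih =>
    intro j r hj hr
    rw [List.flatMap_cons]
    cases j with
    | zero =>
      rw [List.getD_append _ _ _ _ (by rw [img_len]; omega), mul_zero, zero_add]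
      rfl
    | succ j =>
      rw [List.getD_append_right _ _ _ _ (by rw [img_len]; omega), img_len,
        show 96 * (j + 1) + r - 96 = 96 * j + r by omega,
        ih j r (by simpa using hj) hr, List.getD_cons_succ]

/-- the factor of the fixed point of length `l` at `k` -/
def fac (k l : ℕ) : List (Fin 3) := (List.range l).map fun t => fix (k + t)

lemma fac_getD (k l s : ℕ) (hs : s < l * 96) :
    ((fac k l).flatMap img).getD s 0 = fix (96 * k + s) := by
  have h1 : s = 96 * (s / 96) + s % 96 := by omega
  have h2 : s / 96 < (fac k l).length := by simp only [fac, List.length_map, List.length_range]; omega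
  conv_lhs => rw [h1]
  rw [flatMap_getD _ _ _ h2 (by omega)]
  have h3 : 96 * k + s = 96 * (k + s / 96) + s % 96 := by omega
  rw [h3, fix_eq _ _ (by omega)]
  congr 1
  rw [List.getD_eq_getElem _ _ h2]
  simp [fac]

/-- partial square of period `m` at `i` -/
def PSq (m i : ℕ) : Prop :=
  ∀ t < m, hole (i + t) = true ∨ hole (i + m + t) = true ∨ fix (i + t) = fix (i + m + t)

lemma window {k l m r : ℕ} {ms : List ℕ} (hc : chk (fac k l) ms = true) (hm : m ∈ ms)
    (hm1 : 1 ≤ m) (hr : r < 96) (hl : r + 2 * m ≤ l * 96) : ¬ PSq m (96 * k + r) := by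
  intro hp
  unfold chk at hc
  rw [List.all_eq_true] at hc
  refine noRun_sound (hc m hm) hm1 hr ?_
  intro t ht
  have hlen : (fac k l).length = l := by simp [fac]
  rw [hlen, Nat.testBit_xor, Nat.testBit_two_pow_sub_one, Nat.testBit_mod_two_pow,
    testBit_mis _ _ _ _ _ (by rw [flatMap_len, hlen]; omega) (by rw [flatMap_len, hlen]; omega)]
  · have : r + t < l * 96 - m := by omega
    simp [this]
  · rw [fac_getD k l _ (by omega), fac_getD k l _ (by omega)]
    have h1 := hp t ht
    have hh : ∀ s, hole (96 * k + s) = hole s := by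
      intro s
      rw [show 96 * k + s = s + 16 * (6 * k) by omega, hole_add]
    rw [add_assoc, hh, show 96 * k + r + m + t = 96 * k + (m + (r + t)) by omega, hh] at h1
    exact h1

/-! ### Finite checks -/

lemma H_adj : ∀ x : Fin 3, ∀ r < 95, H x r ≠ H x (r + 1) := by decide +kernel

lemma H_last : ∀ x : Fin 3, H x 95 ≠ 0 := by decide +kernel

lemma H_first : ∀ x : Fin 3, ∀ r < 16, H x r = H 0 r := by decide +kernel

lemma H_inj : ∀ x y : Fin 3, H x 43 = H y 43 → x = y := by decide +kernel

lemma chk_small : ∀ x y : Fin 3, x ≠ y → chk [x, y] (List.range' 2 29) = true := by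
  decide +kernel

lemma chk_medium : ∀ a b c d e : Fin 3, a ≠ b → b ≠ c → c ≠ d → d ≠ e → ¬ (a = c ∧ b = d) →
    ¬ (b = d ∧ c = e) →
    chk [a, b, c, d, e] [16, 32, 48, 64, 80, 96, 112, 128, 144, 160, 176] = true := by
  decide +kernel

lemma chk_sync16 : ∀ x y : Fin 3, ∀ a < 6, ∀ b < 6, ∀ r < 16, r ≠ 0 →
    mis (pl 0 ((img x).drop (16 * a))) (pl 1 ((img x).drop (16 * a))) (nh 16)
      (pl 0 ((img y ++ img 0).drop (16 * b))) (pl 1 ((img y ++ img 0).drop (16 * b)))
      (nh 32) r ≠ 0 := by
  decide +kernel

lemma chk_sync96 : ∀ x y z : Fin 3, ∀ a < 6, a ≠ 0 →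
    mis (pl 0 (img x)) (pl 1 (img x)) (nh 96) (pl 0 (img y ++ img z)) (pl 1 (img y ++ img z))
      (nh 192) (16 * a) ≠ 0 := by
  decide +kernel

/-! ### The fixed point has no partial square -/

lemma fix_block (n : ℕ) : fix n = H (fix (n / 96)) (n % 96) := by
  conv_lhs => rw [show n = 96 * (n / 96) + n % 96 by omega]
  exact fix_eq _ _ (by omega)

lemma adj (n : ℕ) : fix n ≠ fix (n + 1) := by
  by_cases h : n % 96 < 95
  · rw [fix_block n, fix_block (n + 1), show (n + 1) / 96 = n / 96 by omega,
      show (n + 1) % 96 = n % 96 + 1 by omega]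
    exact H_adj _ _ h
  · rw [fix_block n, fix_block (n + 1), show n % 96 = 95 by omega,
      show (n + 1) % 96 = 0 by omega, H_first _ 0 (by omega)]
    exact fun h => H_last _ (h.trans (by decide))

lemma small (m : ℕ) (h2 : 2 ≤ m) (h30 : m ≤ 30) (i : ℕ) : ¬ PSq m i := by
  have h := chk_small (fix (i / 96)) (fix (i / 96 + 1)) (adj _)
  have hf : fac (i / 96) 2 = [fix (i / 96), fix (i / 96 + 1)] := rfl
  rw [← hf] at h
  have := window (k := i / 96) (l := 2) (m := m) (r := i % 96) h
    (List.mem_range'_1.mpr ⟨h2, by omega⟩) (by omega) (by omega) (by omega)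
  rwa [show 96 * (i / 96) + i % 96 = i by omega] at this

lemma no_sq2 (i : ℕ) : ¬ (fix i = fix (i + 2) ∧ fix (i + 1) = fix (i + 3)) := by
  rintro ⟨h1, h2⟩
  refine small 2 (by omega) (by omega) i ?_
  intro t ht
  refine Or.inr (Or.inr ?_)
  rcases (show t = 0 ∨ t = 1 by omega) with rfl | rfl
  · exact h1
  · exact h2

lemma medium (m : ℕ) (h0 : 1 ≤ m) (h11 : m ≤ 190) (h16 : m % 16 = 0) (i : ℕ) : ¬ PSq m i := by
  have h := chk_medium (fix (i / 96)) (fix (i / 96 + 1)) (fix (i / 96 + 2)) (fix (i / 96 + 3))
    (fix (i / 96 + 4)) (adj _) (adj _) (adj _) (adj _) (no_sq2 _) (no_sq2 _)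
  have hf : fac (i / 96) 5 = [fix (i / 96), fix (i / 96 + 1), fix (i / 96 + 2),
    fix (i / 96 + 3), fix (i / 96 + 4)] := rfl
  rw [← hf] at h
  have := window (k := i / 96) (l := 5) (m := m) (r := i % 96) h
    (by simp only [List.mem_cons, List.not_mem_nil, or_false]; omega) (by omega) (by omega)
    (by omega)
  rwa [show 96 * (i / 96) + i % 96 = i by omega] at this

lemma mis_zero (L L' : List (Fin 3)) (n n' m : ℕ) (hL : n ≤ L.length)
    (hL' : m + n ≤ L'.length)
    (h : ∀ i < n, hole i = true ∨ hole (m + i) = true ∨ L.getD i 0 = L'.getD (m + i) 0) :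
    mis (pl 0 L) (pl 1 L) (nh n) (pl 0 L') (pl 1 L') (nh n') m = 0 := by
  apply Nat.zero_of_testBit_eq_false
  intro i
  unfold mis
  rw [Nat.testBit_and, Nat.testBit_or, Nat.testBit_xor, Nat.testBit_xor, Nat.testBit_and,
    Nat.testBit_shiftRight, Nat.testBit_shiftRight, Nat.testBit_shiftRight]
  by_cases hi : i < n
  · rw [testBit_pl _ _ _ (by omega), testBit_pl _ _ _ (by omega), testBit_pl _ _ _ (by omega),
      testBit_pl _ _ _ (by omega)]
    rcases h i hi with h | h | h
    · rw [testBit_nh _ _ hi, h]; simp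
    · by_cases hn : m + i < n'
      · rw [testBit_nh _ _ hn, h]; simp
      · rw [testBit_nh_false _ _ hn]; simp
    · rw [h]; simp
  · rw [testBit_nh_false _ _ hi]; simp

lemma img_append_len (x y : Fin 3) : (img x ++ img y).length = 192 := by
  rw [List.length_append, img_len, img_len]

/-- letters of two consecutive images -/
lemma fix_two (k s : ℕ) (hs : s < 192) :
    fix (96 * k + s) = (img (fix k) ++ img (fix (k + 1))).getD s 0 := by
  by_cases h : s < 96
  · rw [List.getD_append _ _ _ _ (by rw [img_len]; omega), fix_eq _ _ h]; rfl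
  · rw [List.getD_append_right _ _ _ _ (by rw [img_len]; omega), img_len,
      show 96 * k + s = 96 * (k + 1) + (s - 96) by omega, fix_eq _ _ (by omega)]
    rfl

lemma fix_two_zero (k s : ℕ) (hs : s < 112) :
    fix (96 * k + s) = (img (fix k) ++ img 0).getD s 0 := by
  by_cases h : s < 96
  · rw [List.getD_append _ _ _ _ (by rw [img_len]; omega), fix_eq _ _ h]; rfl
  · rw [List.getD_append_right _ _ _ _ (by rw [img_len]; omega), img_len,
      show 96 * k + s = 96 * (k + 1) + (s - 96) by omega, fix_eq _ _ (by omega),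
      H_first _ _ (by omega)]
    rfl

lemma getD_drop (L : List (Fin 3)) (a i : ℕ) : (L.drop a).getD i 0 = L.getD (a + i) 0 := by
  simp [List.getD_eq_getElem?_getD]

lemma sync16 (m i : ℕ) (hm : 31 ≤ m) (hp : PSq m i) : m % 16 = 0 := by
  by_contra hr
  obtain ⟨j, hj1, hj2⟩ : ∃ j, i ≤ 16 * j ∧ 16 * j + 16 ≤ i + m := ⟨(i + 15) / 16, by omega, by omega⟩
  refine chk_sync16 (fix (j / 6)) (fix ((j + m / 16) / 6)) (j % 6) (by omega)
    ((j + m / 16) % 6) (by omega) (m % 16) (by omega) hr ?_
  apply mis_zero
  · rw [List.length_drop, img_len]; omega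
  · rw [List.length_drop, img_append_len]; omega
  · intro t ht
    have h := hp (16 * j + t - i) (by omega)
    rw [show i + (16 * j + t - i) = 16 * j + t by omega,
      show i + m + (16 * j + t - i) = 16 * j + t + m by omega] at h
    have e1 : hole (16 * j + t) = hole t := by rw [add_comm, hole_add]
    have e2 : hole (16 * j + t + m) = hole (m % 16 + t) := by
      rw [← hole_mod, ← hole_mod (m % 16 + t)]
      congr 1; omega
    rw [e1, e2] at h
    have e3 : fix (16 * j + t) = ((img (fix (j / 6))).drop (16 * (j % 6))).getD t 0 := by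
      rw [getD_drop, show 16 * j + t = 96 * (j / 6) + (16 * (j % 6) + t) by omega,
        fix_eq _ _ (by omega)]
      rfl
    have e4 : fix (16 * j + t + m) = ((img (fix ((j + m / 16) / 6)) ++ img 0).drop
        (16 * ((j + m / 16) % 6))).getD (m % 16 + t) 0 := by
      rw [getD_drop, show 16 * j + t + m = 96 * ((j + m / 16) / 6) +
        (16 * ((j + m / 16) % 6) + (m % 16 + t)) by omega]
      exact fix_two_zero _ _ (by omega)
    rw [e3, e4] at h
    exact h

lemma sync96 (m i : ℕ) (hm : 191 ≤ m) (h16 : m % 16 = 0) (hp : PSq m i) : m % 96 = 0 := by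
  by_contra hr
  obtain ⟨k, hk1, hk2⟩ : ∃ k, i ≤ 96 * k ∧ 96 * k + 96 ≤ i + m := ⟨(i + 95) / 96, by omega, by omega⟩
  refine chk_sync96 (fix k) (fix (k + m / 96)) (fix (k + m / 96 + 1)) (m % 96 / 16) (by omega)
    (by omega) ?_
  apply mis_zero
  · rw [img_len]
  · rw [img_append_len]; omega
  · intro t ht
    have h := hp (96 * k + t - i) (by omega)
    rw [show i + (96 * k + t - i) = 96 * k + t by omega,
      show i + m + (96 * k + t - i) = 96 * (k + m / 96) + (16 * (m % 96 / 16) + t) by omega] at h
    have e1 : hole (96 * k + t) = hole t := by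
      rw [show 96 * k + t = t + 16 * (6 * k) by omega, hole_add]
    have e2 : hole (96 * (k + m / 96) + (16 * (m % 96 / 16) + t)) =
        hole (16 * (m % 96 / 16) + t) := by
      rw [show 96 * (k + m / 96) + (16 * (m % 96 / 16) + t) =
        (16 * (m % 96 / 16) + t) + 16 * (6 * (k + m / 96)) by omega, hole_add]
    rw [e1, e2, fix_eq _ _ ht, fix_two _ _ (by omega)] at h
    exact h

theorem no_psq : ∀ m, 2 ≤ m → ∀ i, ¬ PSq m i := by
  intro m
  induction m using Nat.strong_induction_on with
  | _ m ih =>
    intro hm i hp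
    by_cases hs : m ≤ 30
    · exact small m hm hs i hp
    have h16 := sync16 m i (by omega) hp
    by_cases hmd : m ≤ 190
    · exact medium m (by omega) hmd h16 i hp
    have h96 := sync96 m i (by omega) h16 hp
    obtain ⟨q, rfl⟩ : ∃ q, m = 96 * q := ⟨m / 96, by omega⟩
    -- comparison at position 43 of the blocks
    have key : ∀ k, i ≤ 96 * k + 43 → 96 * k + 43 < i + 96 * q → fix k = fix (k + q) := by
      intro k h1 h2
      have h := hp (96 * k + 43 - i) (by omega)
      rw [show i + (96 * k + 43 - i) = 96 * k + 43 by omega,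
        show i + 96 * q + (96 * k + 43 - i) = 96 * (k + q) + 43 by omega] at h
      have e : ∀ k, hole (96 * k + 43) = false := by
        intro k
        rw [show 96 * k + 43 = 43 + 16 * (6 * k) by omega, hole_add]; decide
      rw [e, e, fix_eq _ _ (by omega), fix_eq _ _ (by omega)] at h
      rcases h with h | h | h
      · exact absurd h (by decide)
      · exact absurd h (by decide)
      · exact H_inj _ _ h
    -- start of the square one level down
    obtain ⟨k0, h1, h2⟩ : ∃ k0, i ≤ 96 * k0 + 43 ∧ 96 * k0 < i + 53 :=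
      ⟨(i + 52) / 96, by omega, by omega⟩
    refine ih q (by omega) (by omega) k0 ?_
    intro t ht
    refine Or.inr (Or.inr ?_)
    rw [key (k0 + t) (by omega) (by omega)]
    congr 1; omega

lemma fix_squareFree : SquareFree fix := by
  rintro ⟨i, p, hp, h⟩
  by_cases h1 : p = 1
  · subst h1; exact adj i (h 0 (by omega))
  · exact no_psq p (by omega) i (fun t ht => Or.inr (Or.inr (h t ht)))

/-- the wildcard set -/
def holes : Set ℕ := {n | hole n = true}

lemma fix_wildcard : IsWildcard fix holes := by
  rintro ⟨i, m, hm, h⟩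
  exact no_psq m hm i h

/-! ### Density and generation -/

lemma cnt_holes_block (k : ℕ) : cnt fix holes (16 * k) 16 = 3 := by
  have e : ∀ t, (sym fix holes (16 * k + t) = 3) = (hole t = true) := by
    intro t
    rw [sym_eq_three]
    show (hole (16 * k + t) = true) = _
    rw [add_comm, hole_add]
  simp only [cnt, e]
  decide

lemma cnt_holes (k : ℕ) : cnt fix holes 0 (16 * k) = 3 * k := by
  induction k with
  | zero => rfl
  | succ k ih =>
    rw [show 16 * (k + 1) = 16 * k + 16 by ring, cnt_add, ih, zero_add, cnt_holes_block]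
    ring

lemma holes_lower (n : ℕ) : 3 * n ≤ 16 * (holes ∩ Set.Iio n).ncard + 48 := by
  rw [ncard_eq_cnt (u := fix)]
  have h := cnt_add (u := fix) (P := holes) 0 (16 * (n / 16)) (n % 16)
  rw [show 16 * (n / 16) + n % 16 = n by omega, cnt_holes] at h
  omega

lemma holes_density : 3 / 16 ≤ upperDensity holes := by
  unfold upperDensity
  have h1 : Filter.Tendsto (fun n : ℕ => (3 / 16 : ℝ) + (-3) / n) Filter.atTop
      (nhds (3 / 16 + 0)) :=
    tendsto_const_nhds.add (tendsto_const_div_atTop_nhds_zero_nat (-3))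
  rw [add_zero] at h1
  rw [← h1.limsup_eq]
  apply Filter.limsup_le_limsup
  · filter_upwards [Filter.eventually_gt_atTop 0] with n hn
    have hn' : (0 : ℝ) < n := by exact_mod_cast hn
    have h2 : (3 : ℝ) * n ≤ 16 * ((holes ∩ Set.Iio n).ncard : ℝ) + 48 := by
      exact_mod_cast holes_lower n
    rw [le_div_iff₀ hn', add_mul, div_mul_cancel₀ _ hn'.ne']
    linarith
  · exact h1.isCoboundedUnder_le
  · refine Filter.isBoundedUnder_of ⟨1, fun n => ?_⟩
    have h3 : (holes ∩ Set.Iio n).ncard ≤ n := by
      rw [ncard_eq_cnt (u := fix)]; exact cnt_le 0 n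
    have h4 : ((holes ∩ Set.Iio n).ncard : ℝ) ≤ n := by exact_mod_cast h3
    exact div_le_one_of_le₀ h4 (by positivity)

lemma flex_le {u : ℕ → Fin 3} (hu : SquareFree u) : flex u ≤ 3 / 16 := by
  unfold flex
  apply Real.sSup_le
  · rintro d ⟨P, hP, rfl⟩
    exact upperDensity_le hu hP
  · norm_num

lemma flex_fix : flex fix = 3 / 16 := by
  apply le_antisymm (flex_le fix_squareFree)
  refine le_trans holes_density ?_
  unfold flex
  refine le_csSup ⟨3 / 16, ?_⟩ ⟨holes, fix_wildcard, rfl⟩
  rintro d ⟨P, hP, rfl⟩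
  exact upperDensity_le fix_squareFree hP

lemma flatMap_range (n : ℕ) :
    ((List.range n).map fix).flatMap img = (List.range (n * 96)).map fix := by
  have hf : (List.range n).map fix = fac 0 n := by simp [fac]
  rw [hf]
  have hl : ((fac 0 n).flatMap img).length = n * 96 := by
    rw [flatMap_len]; simp [fac]
  apply List.ext_getElem
  · rw [hl]; simp
  · intro s h1 h2
    rw [hl] at h1
    have h3 := fac_getD 0 n s h1
    rw [List.getD_eq_getElem _ _ (by rw [hl]; exact h1)] at h3
    rw [h3]
    simp

lemma iter_img (n : ℕ) : iter img n [0] = (List.range (96 ^ n)).map fix := by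
  induction n with
  | zero => simp [iter, fix]
  | succ n ih => rw [iter, ih, flatMap_range, pow_succ]

lemma fix_generates : Generates img 0 fix := by
  refine ⟨⟨(img 0).tail, by decide, by decide⟩, ?_, ?_⟩
  · have : (fun n => (iter img n [0]).length) = fun n => 96 ^ n := by
      funext n; rw [iter_img]; simp
    rw [this]
    exact tendsto_pow_atTop_atTop_of_one_lt (by norm_num)
  · intro n
    rw [iter_img]; simp

end Pool.Agent.H159.Flexibility
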